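import Pool.Agent.LRG.StmtsA

/-!
LRG, row MCH: the minimal polynomial of a unit which generates the field.
-/

set_option autoImplicit false

open Polynomial NumberField

namespace Pool.Agent.LRG.H77

theorem chi_natDegree_aux {S : Type} [CommRing S] (n : ℕ) (e : ℤ) (y : Fin (n - 1) → S) (k : ℕ) :
    (chi n e y).coeff k = (if k = n then 1 else 0)
      + (∑ j : Fin (n - 1), if k = j.1 + 1 then y j else 0) + (if k = 0 then (e : S) else 0) := by
  rw [chi, coeff_add, coeff_add, coeff_X_pow, finsetSum_coeff, coeff_C]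
  congr 2
  refine Finset.sum_congr rfl fun j _ => ?_
  rw [coeff_C_mul_X_pow]

theorem chi_of_monic (n : ℕ) (hn : 0 < n) (P : ℤ[X]) (hP : P.Monic) (hd : P.natDegree = n) :
    P = chi n (P.coeff 0) (fun j : Fin (n - 1) => P.coeff (j.1 + 1)) := by
  ext k
  rw [chi_natDegree_aux]
  rcases Nat.lt_trichotomy k n with h | h | h
  · rw [if_neg h.ne, zero_add]
    rcases Nat.eq_zero_or_pos k with h0 | h0
    · subst h0
      rw [if_pos rfl, Finset.sum_eq_zero, zero_add]
      · simp
      · intro j _
        rw [if_neg (by omega)]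
    · rw [if_neg h0.ne', add_zero, Finset.sum_eq_single ⟨k - 1, by omega⟩]
      · rw [if_pos (by simp; omega)]
        congr 1
        simp only
        omega
      · intro j _ hj
        rw [if_neg]
        intro h1
        apply hj
        apply Fin.ext
        simp only
        omega
      · intro h1
        exact absurd (Finset.mem_univ _) h1
  · rw [if_pos h, if_neg (by omega), Finset.sum_eq_zero, h, ← hd]
    · rw [show P.coeff P.natDegree = 1 from hP]
      simp
    · intro j _
      rw [if_neg]
      have := j.2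
      omega
  · rw [if_neg h.ne', if_neg (by omega), Finset.sum_eq_zero]
    · rw [coeff_eq_zero_of_natDegree_lt (by omega)]
      simp
    · intro j _
      rw [if_neg]
      have := j.2
      omega

theorem mch : A.MchStmt := by
  intro n K _ _ u hn hu
  have hint : IsIntegral ℤ (u : 𝓞 K) := RingOfIntegers.isIntegral (u : 𝓞 K)
  have hmap : minpoly ℚ ((u : 𝓞 K) : K) = (minpoly ℤ (u : 𝓞 K)).map (algebraMap ℤ ℚ) :=
    minpoly.isIntegrallyClosed_eq_field_fractions ℚ K hint
  have hmon : (minpoly ℤ (u : 𝓞 K)).Monic := minpoly.monic hint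
  have hintQ : IsIntegral ℚ ((u : 𝓞 K) : K) := IsIntegral.of_finite ℚ _
  have hdeg : (minpoly ℤ (u : 𝓞 K)).natDegree = n := by
    have h1 := IntermediateField.adjoin.finrank hintQ
    rw [hu, IntermediateField.finrank_top', hn, hmap, hmon.natDegree_map] at h1
    exact h1.symm
  have hn0 : 0 < n := by
    rw [← hn]
    exact Module.finrank_pos
  refine ⟨chi_of_monic n hn0 _ hmon hdeg, ?_⟩
  have htop : Algebra.adjoin ℚ {((u : 𝓞 K) : K)} = ⊤ := by
    rw [← IntermediateField.adjoin_simple_toSubalgebra_of_isAlgebraic hintQ.isAlgebraic, hu,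
      IntermediateField.top_toSubalgebra]
  have hnorm := Algebra.PowerBasis.norm_gen_eq_coeff_zero_minpoly
    (PowerBasis.ofAdjoinEqTop hintQ htop)
  rw [PowerBasis.ofAdjoinEqTop_gen, hmap, coeff_map] at hnorm
  have h1 := Units.norm K u
  rw [hnorm, abs_mul, abs_pow, abs_neg, abs_one, one_pow, one_mul] at h1
  have h2 : |(minpoly ℤ (u : 𝓞 K)).coeff 0| = 1 := by
    have h3 : ((|(minpoly ℤ (u : 𝓞 K)).coeff 0| : ℤ) : ℚ) = 1 := by
      rw [Int.cast_abs]
      exact h1
    exact_mod_cast h3
  rcases abs_eq (zero_le_one) |>.1 h2 with h | h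
  · exact Or.inl h
  · exact Or.inr h

end Pool.Agent.LRG.H77
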