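import Pool.Agent.LRG.StmtsC
import Pool.Agent.Helper80_LUB.OMG
import Pool.Agent.Helper77_LRG.MCH

/-!
LRG, row OMR: the differential field of an arc.
-/

set_option autoImplicit false

open Polynomial NumberField

namespace Pool.Agent.LRG.H77

theorem splits_fin {Q : Type} [Field Q] (G : Q[X]) (hG : G.Monic) (hs : G.Splits) (n : ℕ)
    (hn : G.natDegree = n) : ∃ θ : Fin n → Q, G = ∏ j, (X - C (θ j)) := by
  have h1 : G = (G.roots.map fun a => X - C a).prod := by
    have h2 := hs.eq_prod_roots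
    rw [hG.leadingCoeff, C_1, one_mul] at h2
    exact h2
  have hcard : G.roots.toList.length = n := by
    rw [Multiset.length_toList, ← hn]
    exact hs.natDegree_eq_card_roots.symm
  subst hcard
  refine ⟨fun j => G.roots.toList[j.1], ?_⟩
  rw [Fin.prod_univ_fun_getElem G.roots.toList (fun a : Q => (X - C a : Q[X]))]
  conv_lhs => rw [h1]
  conv_lhs => rw [← Multiset.coe_toList G.roots, Multiset.map_coe, Multiset.prod_coe]

theorem chi_coeff_gt {S : Type} [CommRing S] (n : ℕ) (e : ℤ) (y : Fin (n - 1) → S) (k : ℕ)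
    (h : n < k) : (chi n e y).coeff k = 0 := by
  rw [chi_natDegree_aux, if_neg (by omega), if_neg (by omega), Finset.sum_eq_zero]
  · simp
  · intro j _
    rw [if_neg]
    have := j.2
    omega

theorem chi_coeff_n {S : Type} [CommRing S] (n : ℕ) (hn : 0 < n) (e : ℤ) (y : Fin (n - 1) → S) :
    (chi n e y).coeff n = 1 := by
  rw [chi_natDegree_aux, if_pos rfl, if_neg (by omega), Finset.sum_eq_zero]
  · simp
  · intro j _
    rw [if_neg]
    have := j.2
    omega

theorem chi_natDegree_le {S : Type} [CommRing S] (n : ℕ) (e : ℤ) (y : Fin (n - 1) → S) :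
    (chi n e y).natDegree ≤ n :=
  natDegree_le_iff_coeff_eq_zero.2 fun k hk => chi_coeff_gt n e y k hk

theorem chi_monic {S : Type} [CommRing S] (n : ℕ) (hn : 0 < n) (e : ℤ) (y : Fin (n - 1) → S) :
    (chi n e y).Monic :=
  monic_of_natDegree_le_of_coeff_eq_one n (chi_natDegree_le n e y) (chi_coeff_n n hn e y)

theorem chi_natDegree {S : Type} [CommRing S] [Nontrivial S] (n : ℕ) (hn : 0 < n) (e : ℤ)
    (y : Fin (n - 1) → S) : (chi n e y).natDegree = n := by
  refine le_antisymm (chi_natDegree_le n e y) (le_natDegree_of_ne_zero ?_)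
  rw [chi_coeff_n n hn]
  exact one_ne_zero

theorem chi_map {S T : Type} [CommRing S] [CommRing T] (f : S →+* T) (n : ℕ) (e : ℤ)
    (y : Fin (n - 1) → S) : (chi n e y).map f = chi n e fun j => f (y j) := by
  rw [chi, chi]
  simp only [Polynomial.map_add, Polynomial.map_pow, map_X, Polynomial.map_sum, Polynomial.map_mul,
    map_C]
  rw [_root_.map_intCast f]

theorem omr : CX.OmrStmt := by
  classical
  intro p _ n r z₀ e ξ hn
  let yA : Ix n r → PowerSeries ℤ_[p] :=
    fun s => (z₀ s : PowerSeries ℤ_[p]) + (p : PowerSeries ℤ_[p]) ^ 2 * ξ s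
  let F : (PowerSeries ℤ_[p])[X] := ∏ i, chiI e yA i
  have hmon : ∀ i, (chiI e yA i).Monic := fun i => chi_monic n hn _ _
  have hF : F.Monic := monic_prod_of_monic _ _ fun i _ => hmon i
  obtain ⟨Ω, i1, i2, i3, D, hinj, hder, θ, hθ⟩ := Pool.Agent.LUB.H80.omg p F hF
  have hmap : ∀ i, (chiI e yA i).map (algebraMap (PowerSeries ℤ_[p]) Ω) = chiI e (yO z₀ ξ Ω) i := by
    intro i
    rw [chiI, chiI, chi_map]
    congr 1
    funext j
    simp only [yA, yO, map_add, map_mul, map_pow, _root_.map_intCast, _root_.map_natCast]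
  have hsp : (F.map (algebraMap (PowerSeries ℤ_[p]) Ω)).Splits := by
    rw [hθ]
    exact Splits.prod fun j _ => Splits.X_sub_C _
  have hx : ∀ i, ∃ x : Fin n → Ω, chiI e (yO z₀ ξ Ω) i = ∏ j, (X - C (x j)) := by
    intro i
    refine splits_fin _ (chi_monic n hn _ _) ?_ n (chi_natDegree n hn _ _)
    refine hsp.of_dvd (hF.map _).ne_zero ?_
    have h1 := Polynomial.map_dvd (algebraMap (PowerSeries ℤ_[p]) Ω)
      (Finset.dvd_prod_of_mem (fun i => chiI e yA i) (Finset.mem_univ i))
    rw [hmap i] at h1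
    exact h1
  choose x hx using hx
  exact ⟨Ω, i1, i2, i3, D, x, ⟨hinj, hder, hx⟩⟩

end Pool.Agent.LRG.H77
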