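import Pool.Agent.LRG.StmtsR

/-!
LRG, row ETA: all coordinates are etale on a large subset.
-/

set_option autoImplicit false

open Finset

namespace Pool.Agent.LRG.H77

open Pool.Agent.LRG.R

theorem eta : EtaStatement := by
  classical
  intro hrbm hder N m c E S hg hrob
  have key : ∀ J : Finset (Fin N), ∃ T ⊆ S, (S.card : ℝ) ≤ (2 ^ (E + 1)) ^ J.card * (T.card : ℝ) ∧
      ∀ l ∈ J, ∃ g : Polynomial (MvPolynomial (Fin m) ℤ), Etl c E T l g := by
    intro J
    induction J using Finset.induction_on with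
    | empty =>
      refine ⟨S, Finset.Subset.refl S, ?_, fun l hl => absurd hl (Finset.notMem_empty l)⟩
      rw [Finset.card_empty, pow_zero, one_mul]
    | insert l J hl ih =>
      obtain ⟨T, hTS, hcard, hE⟩ := ih
      have hJ : J.card + 1 ≤ N := by
        have h1 := Finset.card_le_univ (insert l J)
        rw [Finset.card_insert_of_notMem hl, Fintype.card_fin] at h1
        exact h1
      have hT : Rob c E (2 ^ (E + 1)) T := by
        refine hrbm.2 N m c E E (2 ^ ((E + 1) * N)) ((2 ^ (E + 1)) ^ J.card) (2 ^ (E + 1)) S T hrob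
          le_rfl (by positivity) ?_ hTS hcard
        rw [← pow_succ, ← pow_mul]
        exact pow_le_pow_right₀ (by norm_num) (Nat.mul_le_mul_left _ hJ)
      obtain ⟨g, hg0, hgd, hgz⟩ := hg l
      obtain ⟨S', hS', g', hc', he'⟩ := hder N m c E l T g hg0 hgd (fun x hx => hgz x (hTS hx)) hT
      refine ⟨S', hS'.trans hTS, ?_, ?_⟩
      · rw [Finset.card_insert_of_notMem hl]
        calc (S.card : ℝ) ≤ (2 ^ (E + 1)) ^ J.card * (T.card : ℝ) := hcard
          _ ≤ (2 ^ (E + 1)) ^ J.card * (2 ^ (E + 1) * (S'.card : ℝ)) :=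
            mul_le_mul_of_nonneg_left hc' (by positivity)
          _ = (2 ^ (E + 1)) ^ (J.card + 1) * (S'.card : ℝ) := by rw [pow_succ]; ring
      · intro k hk
        rcases Finset.mem_insert.1 hk with h | h
        · subst h
          exact ⟨g', he'⟩
        · obtain ⟨q, hq⟩ := hE k h
          exact ⟨q, hq.mono hS'⟩
  obtain ⟨T, hTS, hcard, hE⟩ := key Finset.univ
  rw [Finset.card_univ, Fintype.card_fin, ← pow_mul] at hcard
  refine ⟨T, hTS, hcard, ?_, fun l => hE l (Finset.mem_univ l)⟩
  rw [Finset.nonempty_iff_ne_empty]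
  intro h0
  have hS := hrbm.1 N m c E _ S hrob
  rw [h0, Finset.card_empty, Nat.cast_zero, mul_zero] at hcard
  have h1 : (0 : ℝ) < S.card := by exact_mod_cast hS.card_pos
  linarith

end Pool.Agent.LRG.H77
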