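import Pool.Agent.LRG.StmtsB3

/-!
LRG, row CAL: the case distinction.
-/

set_option autoImplicit false

open Polynomial

namespace Pool.Agent.LRG.H77

theorem cal : CalStmt := by
  intro A O O' _ _ _ _ g ε χ f j₀ hz hev hf hne
  by_contra hf0
  obtain ⟨χ', hχ⟩ : (X : A[X]) ^ j₀ ∣ χ := X_pow_dvd_iff.2 hz
  have hc : χ.coeff j₀ = χ'.coeff 0 := by
    have h := coeff_X_pow_mul χ' j₀ 0
    rw [zero_add] at h
    rw [hχ, h]
  have h1 : f ^ j₀ * χ'.eval₂ g f = 0 := by
    rw [← hev, hχ, eval₂_mul, eval₂_X_pow]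
  have h2 : χ'.eval₂ g f = 0 := by
    rcases mul_eq_zero.1 h1 with h | h
    · exact absurd h (pow_ne_zero _ hf0)
    · exact h
  rw [← divX_mul_X_add χ', eval₂_add, eval₂_mul, eval₂_X, eval₂_C] at h2
  have h3 := congrArg ε h2
  rw [map_add, map_mul, hf, mul_zero, zero_add, map_zero] at h3
  exact hne (hc ▸ h3)

end Pool.Agent.LRG.H77
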