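import Pool.Agent.LRG.StmtsB2

/-!
LRG, row NRP: normalization of the coefficients.
-/

set_option autoImplicit false

noncomputable section

namespace Pool.Agent.LRG.H77

theorem nrp : NrpStmt := by
  intro p _ m K a ha hD
  classical
  let c : (Fin m →₀ ℕ) → ℤ_[p] := fun α => MvPowerSeries.coeff α a * (p : ℤ_[p]) ^ α.degree
  have hfin : {α : Fin m →₀ ℕ | α.degree ≤ K}.Finite := Finsupp.finite_of_degree_le K
  obtain ⟨β₀, hβ₀, hmax⟩ := Set.exists_max_image _ (fun α => ‖c α‖) hfin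
    ⟨0, by simp⟩
  have hβ₀' : β₀.degree ≤ K := hβ₀
  have hmax' : ∀ α : Fin m →₀ ℕ, α.degree ≤ K → ‖c α‖ ≤ ‖c β₀‖ := fun α h => hmax α h
  have hp0 : (0 : ℝ) < p := by exact_mod_cast (Fact.out : p.Prime).pos
  have hp1 : (1 : ℝ) < p := by exact_mod_cast (Fact.out : p.Prime).one_lt
  have hcn : ∀ α : Fin m →₀ ℕ, ‖c α‖
      = ‖MvPowerSeries.coeff α a‖ * (p : ℝ) ^ (-((α.degree : ℕ) : ℤ)) := by
    intro α
    show ‖MvPowerSeries.coeff α a * (p : ℤ_[p]) ^ α.degree‖ = _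
    rw [norm_mul, PadicInt.norm_p_pow]
  have hne : c β₀ ≠ 0 := by
    intro h0
    apply ha
    have hz : ∀ α : Fin m →₀ ℕ, α.degree ≤ K → MvPowerSeries.coeff α a = 0 := by
      intro α hα
      have h1 := hmax' α hα
      rw [h0, norm_zero] at h1
      have h2 : c α = 0 := norm_le_zero_iff.1 h1
      have h3 : MvPowerSeries.coeff α a * (p : ℤ_[p]) ^ α.degree = 0 := h2
      rcases mul_eq_zero.1 h3 with h4 | h4
      · exact h4
      · exfalso
        have h5 : ((p : ℕ) : ℤ_[p]) ≠ 0 := by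
          exact_mod_cast (Fact.out : p.Prime).ne_zero
        exact (pow_ne_zero _ h5) h4
    ext α
    rw [map_zero]
    obtain ⟨γ, hγ, hle⟩ := hD α
    rw [hz γ hγ, norm_zero] at hle
    exact norm_le_zero_iff.1 hle
  let κ : ℕ := (c β₀).valuation
  have hκ : ‖c β₀‖ = (p : ℝ) ^ (-(κ : ℤ)) := PadicInt.norm_eq_zpow_neg_valuation hne
  have hall : ∀ α : Fin m →₀ ℕ, ‖c α‖ ≤ (p : ℝ) ^ (-((κ + (α.degree - K) : ℕ) : ℤ)) := by
    intro α
    by_cases hα : α.degree ≤ K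
    · have h1 : α.degree - K = 0 := Nat.sub_eq_zero_of_le hα
      rw [h1, add_zero, ← hκ]
      exact hmax' α hα
    · obtain ⟨γ, hk, hle⟩ := hD α
      have h1 := hmax' γ hk
      rw [hκ, hcn] at h1
      rw [hcn]
      have h2 : ‖MvPowerSeries.coeff γ a‖ ≤ (p : ℝ) ^ (-(κ : ℤ) + ((γ.degree : ℕ) : ℤ)) := by
        rw [zpow_add₀ hp0.ne']
        have h3 : (0 : ℝ) < (p : ℝ) ^ (((γ.degree : ℕ) : ℤ)) := zpow_pos hp0 _
        have h4 := mul_le_mul_of_nonneg_right h1 h3.le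
        rw [mul_assoc, ← zpow_add₀ hp0.ne', neg_add_cancel, zpow_zero, mul_one] at h4
        exact h4
      calc ‖MvPowerSeries.coeff α a‖ * (p : ℝ) ^ (-((α.degree : ℕ) : ℤ))
          ≤ (p : ℝ) ^ (-(κ : ℤ) + ((γ.degree : ℕ) : ℤ)) * (p : ℝ) ^ (-((α.degree : ℕ) : ℤ)) :=
            mul_le_mul_of_nonneg_right (hle.trans h2) (zpow_pos hp0 _).le
        _ = (p : ℝ) ^ (-(κ : ℤ) + ((γ.degree : ℕ) : ℤ) + -((α.degree : ℕ) : ℤ)) := by
            rw [← zpow_add₀ hp0.ne']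
        _ ≤ (p : ℝ) ^ (-((κ + (α.degree - K) : ℕ) : ℤ)) := by
            apply zpow_le_zpow_right₀ hp1.le
            omega
  have hdiv : ∀ α : Fin m →₀ ℕ, ∃ g, c α = (p : ℤ_[p]) ^ (κ + (α.degree - K)) * g := by
    intro α
    have h1 := (PadicInt.norm_le_pow_iff_mem_span_pow (c α) _).1 (hall α)
    exact Ideal.mem_span_singleton.1 h1
  choose g hg using hdiv
  refine ⟨κ, fun α => (p : ℤ_[p]) ^ (α.degree - K) * g α, ?_, ⟨β₀, hβ₀', ?_⟩, ?_⟩
  · intro α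
    have h1 := hg α
    rw [pow_add, mul_assoc] at h1
    exact h1
  · have h0 : β₀.degree - K = 0 := Nat.sub_eq_zero_of_le hβ₀'
    have h1 := hg β₀
    rw [h0, add_zero] at h1
    rw [PadicInt.isUnit_iff]
    show ‖(p : ℤ_[p]) ^ (β₀.degree - K) * g β₀‖ = 1
    rw [h0, pow_zero, one_mul]
    have h2 := congrArg norm h1
    rw [hκ, norm_mul, PadicInt.norm_p_pow] at h2
    have h3 : (p : ℝ) ^ (-(κ : ℤ)) ≠ 0 := (zpow_pos hp0 _).ne'
    have h4 : (p : ℝ) ^ (-(κ : ℤ)) * 1 = (p : ℝ) ^ (-(κ : ℤ)) * ‖g β₀‖ := by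
      rw [mul_one]
      exact h2
    exact (mul_left_cancel₀ h3 h4).symm
  · intro α
    exact Dvd.intro _ rfl

end Pool.Agent.LRG.H77
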