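import Pool.Agent.LRG.StmtsZ

/-!
LRG, row FIN: finiteness of the set of primitive fields of bounded regulator.
-/

set_option autoImplicit false

open Polynomial NumberField

namespace Pool.Agent.LRG.H77

theorem bdd_mono {K : Type} [Field K] [NumberField K] {r : ℕ} {u : Fin r → (𝓞 K)ˣ} {X Y : ℝ}
    (h : Bdd u X) (hXY : X ≤ Y) : Bdd u Y := fun i σ => (h i σ).trans hXY

theorem indep_single {K : Type} [Field K] [NumberField K] {r : ℕ} {u : Fin r → (𝓞 K)ˣ}
    (h : Indep u) (i : Fin r) : Indep (fun _ : Fin 1 => u i) := by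
  classical
  intro c hc
  have h1 := h (Pi.single i (c 0)) (by
    rw [Finset.prod_eq_single i]
    · rw [Pi.single_eq_same]
      simpa using hc
    · intro j _ hj
      rw [Pi.single_eq_of_ne hj, zpow_zero]
    · intro hi
      exact absurd (Finset.mem_univ i) hi)
  have h2 := congrFun h1 i
  rw [Pi.single_eq_same] at h2
  funext j
  rw [Subsingleton.elim j 0, h2]
  rfl

theorem fin : FinStmt := by
  intro hone hreg r₁ r₂ h3 T
  have hr : 0 < r₁ + r₂ - 1 := by omega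
  have hn : 1 < r₁ + 2 * r₂ := by omega
  obtain ⟨H, hH, hF⟩ := hreg (r₁ + 2 * r₂) (r₁ + r₂ - 1) hr hn 1 one_pos
  obtain ⟨C, hC⟩ := hone (r₁ + 2 * r₂) hn
  have hT1 : (1 : ℝ) ≤ max T 1 := le_max_right _ _
  have hE : (0 : ℝ) ≤ max T 1 ^ (1 / ((r₁ + r₂ - 1 : ℕ) : ℝ)) :=
    Real.rpow_nonneg (zero_le_one.trans hT1) _
  have hY : (1 : ℝ) ≤ Real.exp (max 1 H * max T 1 ^ (1 / ((r₁ + r₂ - 1 : ℕ) : ℝ))) :=
    Real.one_le_exp (mul_nonneg (zero_le_one.trans (le_max_left _ _)) hE)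
  refine (hC _ hY).1.subset ?_
  rintro K ⟨inst, h1, h2, hp, hreg⟩
  have hd : Module.finrank ℚ K = r₁ + 2 * r₂ := by
    rw [← h1, ← h2]
    exact (InfinitePlace.card_add_two_mul_card_eq_rank K).symm
  have hrk : Units.rank K = r₁ + r₂ - 1 := by
    rw [Units.rank, InfinitePlace.card_eq_nrRealPlaces_add_nrComplexPlaces, h1, h2]
  refine ⟨inst, hd, hp, ?_⟩
  rcases hF K (max T 1) hT1 hd hrk (hreg.trans (le_max_left _ _)) with ⟨u, hu, hb⟩ | ⟨u, hu, hb⟩
  · refine ⟨u, hu, bdd_mono hb (Real.exp_le_exp.2 ?_)⟩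
    exact mul_le_mul_of_nonneg_right (le_max_left _ _) hE
  · refine ⟨fun _ => u ⟨0, hr⟩, indep_single hu _, fun _ σ => ?_⟩
    refine (hb ⟨0, hr⟩ σ).trans (Real.exp_le_exp.2 ?_)
    exact mul_le_mul_of_nonneg_right (le_max_right _ _) hE

end Pool.Agent.LRG.H77
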